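import Pool.Agent.L5helper59.DM.Defs

/-!
# Products at nondegenerate points; changing one entry of a determinant (D8, D10)
-/

set_option autoImplicit false

open MvPolynomial

namespace Pool.Agent.L5helper59.DM

/-- D8 -/
theorem Pt.mul {ι κ : Type} [Fintype ι] {H : MvPolynomial ι ℂ} {w : κ → ι → ℂ} {x : ι → ℂ}
    (h : Pt H w x) (v : MvPolynomial ι ℂ) (hv : eval x v ≠ 0) : Pt (v * H) w x := by
  classical
  obtain ⟨h0, h1, h2⟩ := h
  have hd : ∀ i, eval x (pderiv i (v * H)) = eval x v * eval x (pderiv i H) := by
    intro i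
    rw [Derivation.leibniz, smul_eq_mul, smul_eq_mul, map_add, map_mul, map_mul, h0, zero_mul,
      add_zero]
  have hdd : ∀ i j, eval x (pderiv j (pderiv i (v * H))) =
      eval x (pderiv i v) * eval x (pderiv j H) + eval x (pderiv j v) * eval x (pderiv i H) +
        eval x v * eval x (pderiv j (pderiv i H)) := by
    intro i j
    rw [Derivation.leibniz, smul_eq_mul, smul_eq_mul, map_add, Derivation.leibniz,
      Derivation.leibniz, smul_eq_mul, smul_eq_mul, smul_eq_mul, smul_eq_mul]
    simp only [map_add, map_mul, h0, zero_mul]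
    ring
  refine ⟨by rw [map_mul, h0, mul_zero], fun e => ?_, fun z hz1 hz2 => ?_⟩
  · have : ∑ i, w e i * eval x (pderiv i (v * H)) =
        eval x v * ∑ i, w e i * eval x (pderiv i H) := by
      rw [Finset.mul_sum]
      refine Finset.sum_congr rfl fun i _ => ?_
      rw [hd]; ring
    rw [this, h1, mul_zero]
  · have h3 : ∑ i, z i * eval x (pderiv i H) = 0 := by
      have h4 : ∑ i, z i * eval x (pderiv i (v * H)) =
          eval x v * ∑ i, z i * eval x (pderiv i H) := by
        rw [Finset.mul_sum]
        refine Finset.sum_congr rfl fun i _ => ?_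
        rw [hd]; ring
      rw [h4] at hz1
      exact (mul_eq_zero.1 hz1).resolve_left hv
    refine h2 z h3 fun e => ?_
    have h5 := hz2 e
    have h6 : ∑ i, ∑ j, z j * w e i * eval x (pderiv j (pderiv i (v * H))) =
        (∑ i, w e i * eval x (pderiv i v)) * (∑ j, z j * eval x (pderiv j H)) +
        (∑ i, w e i * eval x (pderiv i H)) * (∑ j, z j * eval x (pderiv j v)) +
        eval x v * ∑ i, ∑ j, z j * w e i * eval x (pderiv j (pderiv i H)) := by
      rw [Finset.sum_mul_sum, Finset.sum_mul_sum, Finset.mul_sum, ← Finset.sum_add_distrib,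
        ← Finset.sum_add_distrib]
      refine Finset.sum_congr rfl fun i _ => ?_
      rw [Finset.mul_sum, ← Finset.sum_add_distrib, ← Finset.sum_add_distrib]
      refine Finset.sum_congr rfl fun j _ => ?_
      rw [hdd]; ring
    rw [h6, h3, h1 e, mul_zero, zero_mul, zero_add, zero_add] at h5
    exact (mul_eq_zero.1 h5).resolve_left hv

/-- D10 -/
theorem det_add_single {R : Type} [CommRing R] {n : ℕ} (A : Matrix (Fin n) (Fin n) R)
    (i j : Fin n) (c : R) : (A + Matrix.single j i c).det = A.det + c * A.adjugate i j := by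
  have h1 : A + Matrix.single j i c = A.updateRow j (A j + c • Pi.single i 1) := by
    ext a b
    rw [Matrix.add_apply, Matrix.updateRow_apply]
    by_cases ha : a = j
    · subst ha
      rw [if_pos rfl, Pi.add_apply, Pi.smul_apply, smul_eq_mul]
      by_cases hb : b = i
      · subst hb
        rw [Matrix.single_apply_same, Pi.single_eq_same, mul_one]
      · rw [Matrix.single_apply_of_col_ne _ _ (fun h => hb h.symm), Pi.single_eq_of_ne hb,
          mul_zero]
    · rw [if_neg ha, Matrix.single_apply_of_row_ne (fun h => ha h.symm), add_zero]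
  rw [h1, Matrix.det_updateRow_add, Matrix.updateRow_eq_self, Matrix.det_updateRow_smul,
    Matrix.adjugate_apply]

end Pool.Agent.L5helper59.DM
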